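import Pool.Agent.Run7.h723.OG.Iface

/-! # Project OG: pieces MONO, COST, TWOTH -/

set_option autoImplicit false

namespace Run7.h660.OG

open Pool.H723.OG

theorem t_MONO : S_MONO := by
  intro V _ G k l hkl ⟨P, h0, hP⟩
  refine ⟨P, h0, fun A hA => ⟨fun h => ?_, (hP A hA).2.1, (hP A hA).2.2⟩⟩
  obtain ⟨S, hS, h2⟩ := (hP A hA).1 h
  exact ⟨S, hS.trans hkl, h2⟩

theorem t_COST (hG : S_GAME) : S_COST := by
  classical
  intro V _ _ G D k hk
  have h1 : ∀ v, ∃ u, 0 < nb G D v → u ∈ D ∧ G.Adj u v := by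
    intro v
    by_cases hv : 0 < nb G D v
    · have hv' := hv
      unfold nb at hv'
      obtain ⟨u, hu⟩ := Finset.card_pos.1 hv'
      exact ⟨u, fun _ => Finset.mem_filter.1 hu⟩
    · exact ⟨v, fun h => absurd h hv⟩
  have h2 : ∀ v, ∃ a b, 1 < nb G D v → a ∈ D ∧ b ∈ D ∧ a ≠ b ∧ G.Adj a v ∧ G.Adj b v := by
    intro v
    by_cases hv : 1 < nb G D v
    · have hv' := hv
      unfold nb at hv'
      obtain ⟨a, ha, b, hb, hab⟩ := Finset.one_lt_card.1 hv'
      exact ⟨a, b, fun _ => ⟨(Finset.mem_filter.1 ha).1, (Finset.mem_filter.1 hb).1, hab,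
        (Finset.mem_filter.1 ha).2, (Finset.mem_filter.1 hb).2⟩⟩
    · exact ⟨v, v, fun h => absurd h hv⟩
  choose p hp using h1
  choose a b hab using h2
  have hlev : ∀ j v, v ∈ lev G D j ↔ v ∉ D ∧ nb G D v = j := by
    intro j v
    unfold lev
    simp
  refine hG V G D (lev G D 1) (Finset.univ.filter fun v => v ∉ D ∧ 1 < nb G D v) ∅ (lev G D 0)
    p a b id k ?_ ?_ ?_ ?_ ?_ ?_ ?_ ?_
  · intro v
    by_cases hv : v ∈ D
    · exact Or.inl hv
    · rcases Nat.lt_trichotomy (nb G D v) 1 with h | h | h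
      · exact Or.inr (Or.inr (Or.inr (Or.inr ((hlev _ _).2 ⟨hv, by omega⟩))))
      · exact Or.inr (Or.inl ((hlev _ _).2 ⟨hv, h⟩))
      · exact Or.inr (Or.inr (Or.inl (by simp [hv, h])))
  · rw [Finset.disjoint_left]
    intro v hv h
    exact ((hlev _ _).1 h).1 hv
  · rw [Finset.disjoint_left]
    intro v hv h
    exact (Finset.mem_filter.1 h).2.1 hv
  · rw [Finset.disjoint_left]
    intro v hv h
    have h3 := ((hlev _ _).1 hv).2
    have h4 := (Finset.mem_filter.1 h).2.2
    omega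
  · intro v hv
    have h3 := ((hlev _ _).1 hv).2
    exact hp v (by omega)
  · intro v hv
    exact hab v (Finset.mem_filter.1 hv).2.2
  · intro w hw
    exact absurd hw (Finset.notMem_empty w)
  · unfold cost2 at hk
    rw [Finset.card_empty]
    omega

theorem t_TWOTH (hG : S_GAME) (hS : S_STAR) : S_TWOTH := by
  classical
  intro V _ _ G hiso
  obtain ⟨D, P, W, p, m, hcov, hDP, hDW, hPW, hp, hm, hcard⟩ := hS V G hiso
  have hle : D.card + P.card + W.card ≤ Fintype.card V := by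
    have h1 : Disjoint (D ∪ P) W := Finset.disjoint_union_left.2 ⟨hDW, hPW⟩
    rw [← Finset.card_union_of_disjoint hDP, ← Finset.card_union_of_disjoint h1]
    exact Finset.card_le_univ _
  refine ⟨(2 * D.card + P.card + W.card) / 2, hG V G D P ∅ W ∅ p id id m _ ?_ hDP ?_ ?_ hp ?_ hm ?_, ?_⟩
  · intro v
    rcases hcov v with h | h | h
    · exact Or.inl h
    · exact Or.inr (Or.inl h)
    · exact Or.inr (Or.inr (Or.inr (Or.inl h)))
  · exact Finset.disjoint_empty_right _
  · exact Finset.disjoint_empty_right _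
  · intro v hv
    exact absurd hv (Finset.notMem_empty v)
  · rw [Finset.card_empty]
    omega
  · omega

end Run7.h660.OG
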