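import Pool.Agent.Run7.h723.OG.Iface2

/-! # Project OG: pieces N7G and N10A -/

set_option autoImplicit false

namespace Run7.h660.OG.N

open Pool.H723.OG

section
variable {V : Type} [Fintype V] [DecidableEq V] (G : SimpleGraph V)

omit [Fintype V] in
open Classical in
theorem nb3 (x y z v : V) (hxy : x ≠ y) (hxz : x ≠ z) (hyz : y ≠ z) :
    nb G {x, y, z} v = (if G.Adj x v then 1 else 0) + (if G.Adj y v then 1 else 0)
      + (if G.Adj z v then 1 else 0) := by
  unfold nb
  rw [Finset.card_filter, Finset.sum_insert (by simp [hxy, hxz]),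
    Finset.sum_insert (by simp [hyz]), Finset.sum_singleton]
  ring

omit [DecidableEq V] in
theorem mem_lev (D : Finset V) (j : ℕ) (v : V) : v ∈ lev G D j ↔ v ∉ D ∧ nb G D v = j := by
  unfold lev
  simp

open Classical in
/-- condition (C) -/
theorem cc_use (hCC : CC G) (x y z : V) (hxy : x ≠ y) (hxz : x ≠ z) (hyz : y ≠ z) :
    2 ≤ (Finset.univ.filter fun v => G.Adj x v ∧ G.Adj y v ∧ v ≠ z).card +
      (Finset.univ.filter fun v => G.Adj z v ∧ (G.Adj x v ∨ G.Adj y v)).card := by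
  have h := hCC x y z hxy hxz hyz
  set A := Finset.univ.filter fun v => G.Adj x v ∧ G.Adj y v ∧ v ≠ z with hA
  set B := Finset.univ.filter fun v => G.Adj z v ∧ (G.Adj x v ∨ G.Adj y v) with hB
  have h3 : lev G {x, y, z} 3 ⊆ A ∩ B := by
    intro v hv
    rw [mem_lev, nb3 G x y z v hxy hxz hyz] at hv
    obtain ⟨hv1, hv2⟩ := hv
    simp only [Finset.mem_insert, Finset.mem_singleton, not_or] at hv1
    rw [Finset.mem_inter, hA, hB, Finset.mem_filter, Finset.mem_filter]
    by_cases h1 : G.Adj x v <;> by_cases h2 : G.Adj y v <;> by_cases h4 : G.Adj z v <;>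
      simp [h1, h2, h4, hv1] at hv2 ⊢
  have h2 : lev G {x, y, z} 3 ∪ lev G {x, y, z} 2 ⊆ A ∪ B := by
    refine Finset.union_subset (fun v hv => ?_) (fun v hv => ?_)
    · exact Finset.mem_union_left _ (Finset.mem_inter.1 (h3 hv)).1
    · rw [mem_lev, nb3 G x y z v hxy hxz hyz] at hv
      obtain ⟨hv1, hv2⟩ := hv
      simp only [Finset.mem_insert, Finset.mem_singleton, not_or] at hv1
      rw [Finset.mem_union, hA, hB, Finset.mem_filter, Finset.mem_filter]
      by_cases h1 : G.Adj x v <;> by_cases h2 : G.Adj y v <;> by_cases h4 : G.Adj z v <;>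
        simp [h1, h2, h4, hv1] at hv2 ⊢
  have hd : Disjoint (lev G {x, y, z} 3) (lev G {x, y, z} 2) := by
    rw [Finset.disjoint_left]
    intro v hv1 hv2
    have e1 := ((mem_lev G _ _ _).1 hv1).2
    have e2 := ((mem_lev G _ _ _).1 hv2).2
    omega
  have c1 := Finset.card_le_card h3
  have c2 := Finset.card_le_card h2
  rw [Finset.card_union_of_disjoint hd] at c2
  have c3 := Finset.card_union_add_card_inter A B
  omega

/-- bound for the cost -/
theorem cost_le (D T0 T1 : Finset V)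
    (h0 : ∀ v, v ∉ D → v ∉ T0 → ∃ u ∈ D, G.Adj u v)
    (h1 : ∀ v, v ∉ D → v ∉ T0 → v ∉ T1 → ∃ u ∈ D, ∃ u' ∈ D, u ≠ u' ∧ G.Adj u v ∧ G.Adj u' v) :
    cost2 G D ≤ 2 * D.card + 2 * T0.card + T1.card := by
  classical
  have l0 : lev G D 0 ⊆ T0 := by
    intro v hv
    rw [mem_lev] at hv
    by_contra hT
    obtain ⟨u, hu, hadj⟩ := h0 v hv.1 hT
    have h2 := hv.2
    unfold nb at h2
    rw [Finset.card_eq_zero] at h2
    have : u ∈ (∅ : Finset V) := by
      rw [← h2]
      exact Finset.mem_filter.2 ⟨hu, hadj⟩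
    exact absurd this (Finset.notMem_empty u)
  have l1 : lev G D 1 ⊆ T0 ∪ T1 := by
    intro v hv
    rw [mem_lev] at hv
    by_contra hT
    rw [Finset.mem_union, not_or] at hT
    obtain ⟨u, hu, u', hu', hne, ha, ha'⟩ := h1 v hv.1 hT.1 hT.2
    have h2 := hv.2
    unfold nb at h2
    have : 1 < (D.filter (fun u => G.Adj u v)).card :=
      Finset.one_lt_card.2 ⟨u, Finset.mem_filter.2 ⟨hu, ha⟩, u', Finset.mem_filter.2 ⟨hu', ha'⟩, hne⟩
    omega
  have hd : Disjoint (lev G D 0) (lev G D 1) := by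
    rw [Finset.disjoint_left]
    intro v hv1 hv2
    have e1 := ((mem_lev G _ _ _).1 hv1).2
    have e2 := ((mem_lev G _ _ _).1 hv2).2
    omega
  have c1 := Finset.card_le_card l0
  have c2 : (lev G D 0).card + (lev G D 1).card ≤ T0.card + T1.card := by
    rw [← Finset.card_union_of_disjoint hd]
    refine (Finset.card_le_card (Finset.union_subset (l0.trans Finset.subset_union_left) l1)).trans
      (Finset.card_union_le _ _)
  unfold cost2
  omega

omit [Fintype V] [DecidableEq V] in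
theorem exists_adj (hG : G.Connected) (x w : V) (h : x ≠ w) : ∃ u, G.Adj x u := by
  obtain ⟨p⟩ := hG.preconnected x w
  cases p with
  | nil => exact absurd rfl h
  | @cons _ u _ h' _ => exact ⟨u, h'⟩

omit [DecidableEq V] in
theorem dg_pos (hG : G.Connected) (hn : 2 ≤ Fintype.card V) (x : V) : 1 ≤ dg G x := by
  classical
  obtain ⟨w, hw⟩ := Fintype.exists_ne_of_one_lt_card (by omega) x
  obtain ⟨u, hu⟩ := exists_adj G hG x w hw.symm
  unfold dg
  exact Finset.card_pos.2 ⟨u, Finset.mem_filter.2 ⟨Finset.mem_univ _, hu.symm⟩⟩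

theorem nbhd (x : V) (h1 : 1 ≤ dg G x) (h2 : dg G x ≤ 2) : ∃ a b, (∀ v, G.Adj x v ↔ v = a ∨ v = b) ∧
    ((dg G x = 1 ∧ a = b) ∨ (dg G x = 2 ∧ a ≠ b)) := by
  classical
  rcases Nat.lt_or_ge (dg G x) 2 with h | h
  · have h3 : dg G x = 1 := by omega
    have h4 := h3
    unfold dg at h4
    obtain ⟨a, ha⟩ := Finset.card_eq_one.1 h4
    refine ⟨a, a, fun v => ?_, Or.inl ⟨h3, rfl⟩⟩
    have h5 : v ∈ Finset.univ.filter (fun u => G.Adj u x) ↔ v ∈ ({a} : Finset V) := by rw [ha]
    rw [Finset.mem_filter, Finset.mem_singleton] at h5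
    rw [or_self, ← h5, G.adj_comm]
    simp
  · have h3 : dg G x = 2 := by omega
    have h4 := h3
    unfold dg at h4
    obtain ⟨a, b, hab, ha⟩ := Finset.card_eq_two.1 h4
    refine ⟨a, b, fun v => ?_, Or.inr ⟨h3, hab⟩⟩
    have h5 : v ∈ Finset.univ.filter (fun u => G.Adj u x) ↔ v ∈ ({a, b} : Finset V) := by rw [ha]
    rw [Finset.mem_filter, Finset.mem_insert, Finset.mem_singleton] at h5
    rw [← h5, G.adj_comm]
    simp

/-- (C) for disjoint neighbourhoods -/
theorem disj_two (hCC : CC G) (x y a b c d : V) (hxy : x ≠ y)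
    (hN1 : ∀ v, G.Adj x v ↔ v = a ∨ v = b) (hN2 : ∀ v, G.Adj y v ↔ v = c ∨ v = d)
    (hdis : ∀ v, ¬ (G.Adj x v ∧ G.Adj y v)) (z : V) (hzx : z ≠ x) (hzy : z ≠ y) :
    ∃ u u', u ≠ u' ∧ G.Adj u z ∧ G.Adj u' z ∧ u ∈ ({a, b, c, d} : Finset V) ∧
      u' ∈ ({a, b, c, d} : Finset V) := by
  classical
  have h := cc_use G hCC x y z hxy hzx.symm hzy.symm
  have h0 : (Finset.univ.filter fun v => G.Adj x v ∧ G.Adj y v ∧ v ≠ z) = ∅ := by
    rw [Finset.filter_eq_empty_iff]
    intro v _ hv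
    exact hdis v ⟨hv.1, hv.2.1⟩
  rw [h0, Finset.card_empty, zero_add] at h
  obtain ⟨u, hu, u', hu', hne⟩ := Finset.one_lt_card.1 (show 1 < _ from h)
  rw [Finset.mem_filter] at hu hu'
  have hm : ∀ v, (G.Adj x v ∨ G.Adj y v) → v ∈ ({a, b, c, d} : Finset V) := by
    intro v hv
    rw [hN1, hN2] at hv
    simp only [Finset.mem_insert, Finset.mem_singleton]
    tauto
  exact ⟨u, u', hne, hu.2.1.symm, hu'.2.1.symm, hm u hu.2.2, hm u' hu'.2.2⟩

/-- two common neighbours -/
theorem common (hCC : CC G) (x y a b c : V) (hxy : x ≠ y)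
    (hN1 : ∀ v, G.Adj x v ↔ v = a ∨ v = b) (hN2 : ∀ v, G.Adj y v ↔ v = a ∨ v = c) :
    a ≠ b ∧ a ≠ c ∧ (b = c → G.Adj a b) := by
  classical
  have hxa : x ≠ a := ((hN1 a).2 (Or.inl rfl)).ne
  have hya : y ≠ a := ((hN2 a).2 (Or.inl rfl)).ne
  have h := cc_use G hCC x y a hxy hxa hya
  refine ⟨fun hab => ?_, fun hac => ?_, fun hbc => ?_⟩
  · have h0 : (Finset.univ.filter fun v => G.Adj x v ∧ G.Adj y v ∧ v ≠ a) = ∅ := by
      rw [Finset.filter_eq_empty_iff]
      rintro v _ ⟨h1, -, h3⟩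
      rw [hN1, ← hab, or_self] at h1
      exact h3 h1
    have h1 : (Finset.univ.filter fun v => G.Adj a v ∧ (G.Adj x v ∨ G.Adj y v)) ⊆ {c} := by
      intro v hv
      rw [Finset.mem_filter, hN1, hN2, ← hab] at hv
      rw [Finset.mem_singleton]
      obtain ⟨-, h4, h5⟩ := hv
      have := h4.ne'
      tauto
    have h2 := Finset.card_le_card h1
    rw [Finset.card_singleton] at h2
    rw [h0, Finset.card_empty] at h
    omega
  · have h0 : (Finset.univ.filter fun v => G.Adj x v ∧ G.Adj y v ∧ v ≠ a) = ∅ := by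
      rw [Finset.filter_eq_empty_iff]
      rintro v _ ⟨-, h1, h3⟩
      rw [hN2, ← hac, or_self] at h1
      exact h3 h1
    have h1 : (Finset.univ.filter fun v => G.Adj a v ∧ (G.Adj x v ∨ G.Adj y v)) ⊆ {b} := by
      intro v hv
      rw [Finset.mem_filter, hN1, hN2, ← hac] at hv
      rw [Finset.mem_singleton]
      obtain ⟨-, h4, h5⟩ := hv
      have := h4.ne'
      tauto
    have h2 := Finset.card_le_card h1
    rw [Finset.card_singleton] at h2
    rw [h0, Finset.card_empty] at h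
    omega
  · by_contra hnad
    have h0 : (Finset.univ.filter fun v => G.Adj x v ∧ G.Adj y v ∧ v ≠ a) ⊆ {b} := by
      intro v hv
      rw [Finset.mem_filter, hN1] at hv
      rw [Finset.mem_singleton]
      tauto
    have h1 : (Finset.univ.filter fun v => G.Adj a v ∧ (G.Adj x v ∨ G.Adj y v)) = ∅ := by
      rw [Finset.filter_eq_empty_iff]
      rintro v _ ⟨h4, h5⟩
      rw [hN1, hN2, ← hbc] at h5
      have h6 := h4.ne'
      have h7 : v = b := by tauto
      rw [h7] at h4
      exact hnad h4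
    have h2 := Finset.card_le_card h0
    rw [Finset.card_singleton] at h2
    rw [h1, Finset.card_empty] at h
    omega

/-- (C) for neighbourhoods with one common element -/
theorem one_nb (hCC : CC G) (x y a b c : V) (hxy : x ≠ y) (hbc : b ≠ c)
    (hN1 : ∀ v, G.Adj x v ↔ v = a ∨ v = b) (hN2 : ∀ v, G.Adj y v ↔ v = a ∨ v = c)
    (z : V) (hzx : z ≠ x) (hzy : z ≠ y) :
    ∃ u, G.Adj u z ∧ (u = a ∨ u = b ∨ u = c) := by
  classical
  have h := cc_use G hCC x y z hxy hzx.symm hzy.symm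
  have h0 : (Finset.univ.filter fun v => G.Adj x v ∧ G.Adj y v ∧ v ≠ z) ⊆ {a} := by
    intro v hv
    rw [Finset.mem_filter, hN1, hN2] at hv
    rw [Finset.mem_singleton]
    obtain ⟨-, h1, h2, -⟩ := hv
    rcases h1 with h1 | h1
    · exact h1
    · rcases h2 with h2 | h2
      · exact h2
      · exact absurd (h1.symm.trans h2) hbc
  have h2 := Finset.card_le_card h0
  rw [Finset.card_singleton] at h2
  have h3 : 0 < (Finset.univ.filter fun v => G.Adj z v ∧ (G.Adj x v ∨ G.Adj y v)).card := by omega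
  obtain ⟨u, hu⟩ := Finset.card_pos.1 h3
  rw [Finset.mem_filter, hN1, hN2] at hu
  refine ⟨u, hu.2.1.symm, ?_⟩
  have := hu.2.2
  tauto

/-- disjoint neighbourhoods, `n = 7` -/
theorem disj7 (hC : S_COST) (hn : Fintype.card V = 7) (hCC : CC G) (x y a b c d : V) (hxy : x ≠ y)
    (hN1 : ∀ v, G.Adj x v ↔ v = a ∨ v = b) (hN2 : ∀ v, G.Adj y v ↔ v = c ∨ v = d)
    (hdis : ∀ v, ¬ (G.Adj x v ∧ G.Adj y v)) (hxny : ¬ G.Adj x y) (hnd : ¬ (a = b ∧ c = d)) :
    Le G 3 := by
  classical
  have two := disj_two G hCC x y a b c d hxy hN1 hN2 hdis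
  have xa : G.Adj x a := (hN1 a).2 (Or.inl rfl)
  have xb : G.Adj x b := (hN1 b).2 (Or.inr rfl)
  have yc : G.Adj y c := (hN2 c).2 (Or.inl rfl)
  have yd : G.Adj y d := (hN2 d).2 (Or.inr rfl)
  have hac : a ≠ c := fun h => hdis a ⟨xa, h ▸ yc⟩
  have had : a ≠ d := fun h => hdis a ⟨xa, h ▸ yd⟩
  have hbc : b ≠ c := fun h => hdis b ⟨xb, h ▸ yc⟩
  have hbd : b ≠ d := fun h => hdis b ⟨xb, h ▸ yd⟩
  have hxa := xa.ne
  have hxb := xb.ne
  have hyc := yc.ne
  have hyd := yd.ne
  have hxc : x ≠ c := fun h => hxny (by rw [h]; exact yc.symm)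
  have hxd : x ≠ d := fun h => hxny (by rw [h]; exact yd.symm)
  have hya : y ≠ a := fun h => hxny (by rw [h]; exact xa)
  have hyb : y ≠ b := fun h => hxny (by rw [h]; exact xb)
  by_cases hab : a = b
  · have hcd : c ≠ d := fun h => hnd ⟨hab, h⟩
    apply hC V G {a, c, d} 3
    have h1 := cost_le G {a, c, d} ∅ {x} ?_ ?_
    · have h2 : ({a, c, d} : Finset V).card ≤ 3 := Finset.card_le_three
      rw [Finset.card_empty, Finset.card_singleton] at h1
      omega
    · intro v hv _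
      by_cases hvx : v = x
      · exact ⟨a, by simp, by rw [hvx]; exact xa.symm⟩
      by_cases hvy : v = y
      · exact ⟨c, by simp, by rw [hvy]; exact yc.symm⟩
      obtain ⟨u, u', hne, h2, h3, h4, h5⟩ := two v hvx hvy
      exact ⟨u, by simpa [← hab] using h4, h2⟩
    · intro v hv _ hvx
      rw [Finset.mem_singleton] at hvx
      by_cases hvy : v = y
      · exact ⟨c, by simp, d, by simp, hcd, by rw [hvy]; exact yc.symm, by rw [hvy]; exact yd.symm⟩
      obtain ⟨u, u', hne, h2, h3, h4, h5⟩ := two v hvx hvy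
      exact ⟨u, by simpa [← hab] using h4, u', by simpa [← hab] using h5, hne, h2, h3⟩
  by_cases hcd : c = d
  · apply hC V G {a, b, c} 3
    have h1 := cost_le G {a, b, c} ∅ {y} ?_ ?_
    · have h2 : ({a, b, c} : Finset V).card ≤ 3 := Finset.card_le_three
      rw [Finset.card_empty, Finset.card_singleton] at h1
      omega
    · intro v hv _
      by_cases hvx : v = x
      · exact ⟨a, by simp, by rw [hvx]; exact xa.symm⟩
      by_cases hvy : v = y
      · exact ⟨c, by simp, by rw [hvy]; exact yc.symm⟩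
      obtain ⟨u, u', hne, h2, h3, h4, h5⟩ := two v hvx hvy
      exact ⟨u, by simpa [← hcd] using h4, h2⟩
    · intro v hv _ hvy
      rw [Finset.mem_singleton] at hvy
      by_cases hvx : v = x
      · exact ⟨a, by simp, b, by simp, hab, by rw [hvx]; exact xa.symm, by rw [hvx]; exact xb.symm⟩
      obtain ⟨u, u', hne, h2, h3, h4, h5⟩ := two v hvx hvy
      exact ⟨u, by simpa [← hcd] using h4, u', by simpa [← hcd] using h5, hne, h2, h3⟩
  -- four different elements
  set D' : Finset V := {a, b, c, d} with hD'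
  have cD' : D'.card = 4 := by
    rw [hD', Finset.card_insert_of_notMem (by simp [hab, hac, had]),
      Finset.card_insert_of_notMem (by simp [hbc, hbd]),
      Finset.card_insert_of_notMem (by simp [hcd]), Finset.card_singleton]
  have hxD : x ∉ D' := by simp [hD', hxa, hxb, hxc, hxd]
  have hyD : y ∉ D' := by simp [hD', hya, hyb, hyc, hyd]
  have c6 : (insert x (insert y D')).card = 6 := by
    rw [Finset.card_insert_of_notMem (by simp [hxy, hxD]), Finset.card_insert_of_notMem hyD, cD']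
  obtain ⟨z0, -, hz0⟩ := Finset.exists_mem_notMem_of_card_lt_card
    (show (insert x (insert y D')).card < (Finset.univ : Finset V).card by
      rw [c6, Finset.card_univ, hn]; norm_num)
  have hz0' := hz0
  rw [Finset.mem_insert, Finset.mem_insert, not_or, not_or] at hz0'
  obtain ⟨hz0x, hz0y, hz0D⟩ := hz0'
  have hall : ∀ v, v = z0 ∨ v = x ∨ v = y ∨ v ∈ D' := by
    intro v
    have h7 : insert z0 (insert x (insert y D')) = Finset.univ := by
      apply Finset.eq_univ_of_card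
      rw [Finset.card_insert_of_notMem hz0, c6, hn]
    have := Finset.mem_univ v
    rw [← h7, Finset.mem_insert, Finset.mem_insert, Finset.mem_insert] at this
    exact this
  have haD : a ∈ D' := by simp [hD']
  have hbD : b ∈ D' := by simp [hD']
  have hcD : c ∈ D' := by simp [hD']
  have hdD : d ∈ D' := by simp [hD']
  have hw : ∃ w ∈ D', ∃ u u', u ≠ u' ∧ G.Adj u z0 ∧ G.Adj u' z0 ∧ u ∈ D'.erase w ∧
      u' ∈ D'.erase w := by
    by_cases h : ∀ w ∈ D', G.Adj w z0
    · exact ⟨a, haD, c, d, hcd, h c hcD, h d hdD, Finset.mem_erase.2 ⟨hac.symm, hcD⟩,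
        Finset.mem_erase.2 ⟨had.symm, hdD⟩⟩
    · push Not at h
      obtain ⟨w, hw, hnw⟩ := h
      obtain ⟨u, u', hne, h2, h3, h4, h5⟩ := two z0 hz0x hz0y
      exact ⟨w, hw, u, u', hne, h2, h3, Finset.mem_erase.2 ⟨fun e => hnw (e ▸ h2), h4⟩,
        Finset.mem_erase.2 ⟨fun e => hnw (e ▸ h3), h5⟩⟩
  obtain ⟨w, hwD, s, s', hss, hs1, hs2, hs3, hs4⟩ := hw
  have hwx : w ≠ x := fun h => hxD (h ▸ hwD)
  have hwy : w ≠ y := fun h => hyD (h ▸ hwD)
  apply hC V G (D'.erase w) 3
  have h1 := cost_le G (D'.erase w) ∅ (if w = a ∨ w = b then {x} else {y}) ?_ ?_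
  · have h2 : (if w = a ∨ w = b then ({x} : Finset V) else {y}).card = 1 := by
      split_ifs <;> exact Finset.card_singleton _
    rw [Finset.card_empty, h2, Finset.card_erase_of_mem hwD, cD'] at h1
    omega
  · intro v hv _
    rcases hall v with rfl | rfl | rfl | hvD
    · exact ⟨s, hs3, hs1⟩
    · by_cases hwa : w = a
      · exact ⟨b, Finset.mem_erase.2 ⟨fun e => hab (hwa.symm.trans e.symm), hbD⟩, xb.symm⟩
      · exact ⟨a, Finset.mem_erase.2 ⟨fun e => hwa e.symm, haD⟩, xa.symm⟩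
    · by_cases hwc : w = c
      · exact ⟨d, Finset.mem_erase.2 ⟨fun e => hcd (hwc.symm.trans e.symm), hdD⟩, yd.symm⟩
      · exact ⟨c, Finset.mem_erase.2 ⟨fun e => hwc e.symm, hcD⟩, yc.symm⟩
    · have hvw : v = w := by
        by_contra h
        exact hv (Finset.mem_erase.2 ⟨h, hvD⟩)
      obtain ⟨u, u', hne, h2, h3, h4, h5⟩ := two v (hvw ▸ hwx) (hvw ▸ hwy)
      exact ⟨u, Finset.mem_erase.2 ⟨fun e => h2.ne (e.trans hvw.symm), h4⟩, h2⟩
  · intro v hv _ hvT
    rcases hall v with rfl | rfl | rfl | hvD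
    · exact ⟨s, hs3, s', hs4, hss, hs1, hs2⟩
    · have hwab : ¬ (w = a ∨ w = b) := by
        intro h
        rw [if_pos h] at hvT
        exact hvT (Finset.mem_singleton_self _)
      rw [not_or] at hwab
      exact ⟨a, Finset.mem_erase.2 ⟨fun e => hwab.1 e.symm, haD⟩, b,
        Finset.mem_erase.2 ⟨fun e => hwab.2 e.symm, hbD⟩, hab, xa.symm, xb.symm⟩
    · have hwab : w = a ∨ w = b := by
        by_contra h
        rw [if_neg h] at hvT
        exact hvT (Finset.mem_singleton_self _)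
      refine ⟨c, Finset.mem_erase.2 ⟨fun e => ?_, hcD⟩, d,
        Finset.mem_erase.2 ⟨fun e => ?_, hdD⟩, hcd, yc.symm, yd.symm⟩
      · rcases hwab with h | h
        · exact hac (h.symm.trans e.symm)
        · exact hbc (h.symm.trans e.symm)
      · rcases hwab with h | h
        · exact had (h.symm.trans e.symm)
        · exact hbd (h.symm.trans e.symm)
    · have hvw : v = w := by
        by_contra h
        exact hv (Finset.mem_erase.2 ⟨h, hvD⟩)
      obtain ⟨u, u', hne, h2, h3, h4, h5⟩ := two v (hvw ▸ hwx) (hvw ▸ hwy)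
      exact ⟨u, Finset.mem_erase.2 ⟨fun e => h2.ne (e.trans hvw.symm), h4⟩, u',
        Finset.mem_erase.2 ⟨fun e => h3.ne (e.trans hvw.symm), h5⟩, hne, h2, h3⟩

/-- the case (b): one common neighbour, `n = 7` -/
theorem caseb (hC : S_COST) (hA : S_LOWA) (hB : S_LOWB) (hn : Fintype.card V = 7)
    (hG : G.Connected) (hGc : Gᶜ.Connected) (hCC : CC G) (x y a b c : V) (hxy : x ≠ y)
    (hN1 : ∀ v, G.Adj x v ↔ v = a ∨ v = b) (hN2 : ∀ v, G.Adj y v ↔ v = a ∨ v = c)
    (hxny : ¬ G.Adj x y) (hab : a ≠ b) (hac : a ≠ c) (hbc : b ≠ c) : Le G 3 := by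
  classical
  have xa : G.Adj x a := (hN1 a).2 (Or.inl rfl)
  have xb : G.Adj x b := (hN1 b).2 (Or.inr rfl)
  have ya : G.Adj y a := (hN2 a).2 (Or.inl rfl)
  have yc : G.Adj y c := (hN2 c).2 (Or.inr rfl)
  have hxa := xa.ne
  have hxb := xb.ne
  have hya := ya.ne
  have hyc := yc.ne
  have hxc : x ≠ c := fun h => hxny (by rw [h]; exact yc.symm)
  have hyb : y ≠ b := fun h => hxny (by rw [h]; exact xb)
  set E : Finset V := {x, y, a, b, c} with hE
  have cE : E.card = 5 := by
    rw [hE, Finset.card_insert_of_notMem (by simp [hxy, hxa, hxb, hxc]),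
      Finset.card_insert_of_notMem (by simp [hya, hyb, hyc]),
      Finset.card_insert_of_notMem (by simp [hab, hac]),
      Finset.card_insert_of_notMem (by simp [hbc]), Finset.card_singleton]
  have cEc : Eᶜ.card = 2 := by
    rw [Finset.card_compl, hn, cE]
  obtain ⟨z1, z2, hz, hEc⟩ := Finset.card_eq_two.1 cEc
  have hall : ∀ v, v ∈ E ∨ v = z1 ∨ v = z2 := by
    intro v
    by_cases h : v ∈ E
    · exact Or.inl h
    · have : v ∈ Eᶜ := Finset.mem_compl.2 h
      rw [hEc] at this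
      simp only [Finset.mem_insert, Finset.mem_singleton] at this
      exact Or.inr this
  have hz1 : z1 ∉ E := by
    rw [← Finset.mem_compl, hEc]
    simp
  have hz2 : z2 ∉ E := by
    rw [← Finset.mem_compl, hEc]
    simp
  simp only [hE, Finset.mem_insert, Finset.mem_singleton, not_or] at hz1 hz2
  obtain ⟨z1x, z1y, z1a, z1b, z1c⟩ := hz1
  obtain ⟨z2x, z2y, z2a, z2b, z2c⟩ := hz2
  set D : Finset V := {a, b, c} with hD
  have cD : D.card ≤ 3 := Finset.card_le_three
  have haD : a ∈ D := by simp [hD]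
  have hbD : b ∈ D := by simp [hD]
  have hcD : c ∈ D := by simp [hD]
  have hall' : ∀ v, v ∉ D → v = x ∨ v = y ∨ v = z1 ∨ v = z2 := by
    intro v hv
    rcases hall v with h | h | h
    · simp only [hE, hD, Finset.mem_insert, Finset.mem_singleton] at h hv
      tauto
    · exact Or.inr (Or.inr (Or.inl h))
    · exact Or.inr (Or.inr (Or.inr h))
  have one : ∀ z, z ≠ x → z ≠ y → ∃ u ∈ D, G.Adj u z := by
    intro z h1 h2
    obtain ⟨u, h3, h4⟩ := one_nb G hCC x y a b c hxy hbc hN1 hN2 z h1 h2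
    refine ⟨u, ?_, h3⟩
    simp only [hD, Finset.mem_insert, Finset.mem_singleton]
    exact h4
  have h0 : ∀ v, v ∉ D → v ∉ (∅ : Finset V) → ∃ u ∈ D, G.Adj u v := by
    intro v _ _
    by_cases hvx : v = x
    · exact ⟨a, haD, by rw [hvx]; exact xa.symm⟩
    by_cases hvy : v = y
    · exact ⟨a, haD, by rw [hvy]; exact ya.symm⟩
    exact one v hvx hvy
  by_cases p1 : ∃ u ∈ D, ∃ u' ∈ D, u ≠ u' ∧ G.Adj u z1 ∧ G.Adj u' z1
  · apply hC V G D 3
    have h1 := cost_le G D ∅ {z2} h0 ?_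
    · rw [Finset.card_empty, Finset.card_singleton] at h1
      omega
    · intro v hv _ hvz
      rw [Finset.mem_singleton] at hvz
      rcases hall' v hv with rfl | rfl | rfl | rfl
      · exact ⟨a, haD, b, hbD, hab, xa.symm, xb.symm⟩
      · exact ⟨a, haD, c, hcD, hac, ya.symm, yc.symm⟩
      · exact p1
      · exact absurd rfl hvz
  by_cases p2 : ∃ u ∈ D, ∃ u' ∈ D, u ≠ u' ∧ G.Adj u z2 ∧ G.Adj u' z2
  · apply hC V G D 3
    have h1 := cost_le G D ∅ {z1} h0 ?_
    · rw [Finset.card_empty, Finset.card_singleton] at h1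
      omega
    · intro v hv _ hvz
      rw [Finset.mem_singleton] at hvz
      rcases hall' v hv with rfl | rfl | rfl | rfl
      · exact ⟨a, haD, b, hbD, hab, xa.symm, xb.symm⟩
      · exact ⟨a, haD, c, hcD, hac, ya.symm, yc.symm⟩
      · exact absurd rfl hvz
      · exact p2
  -- both have exactly one neighbour in `D`
  have nx : ∀ z, z ≠ a → z ≠ b → ¬ G.Adj x z := by
    intro z h1 h2 h
    rcases (hN1 z).1 h with h | h
    · exact h1 h
    · exact h2 h
  have ny : ∀ z, z ≠ a → z ≠ c → ¬ G.Adj y z := by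
    intro z h1 h2 h
    rcases (hN2 z).1 h with h | h
    · exact h1 h
    · exact h2 h
  have low2 : ∀ z z' : V, z ≠ x → z ≠ y → z ≠ a → z ≠ b → z ≠ c →
      (¬ ∃ u ∈ D, ∃ u' ∈ D, u ≠ u' ∧ G.Adj u z ∧ G.Adj u' z) →
      (∀ v, v ∉ D → v = x ∨ v = y ∨ v = z ∨ v = z') →
      dg G z ≤ 2 ∧ (¬ G.Adj z z' → dg G z ≤ 1) := by
    intro z z' hx hy ha hb hc hp hv
    obtain ⟨u1, hu1, hu1z⟩ := one z hx hy
    have key : ∀ u, G.Adj u z → u = u1 ∨ u = z' := by
      intro u hu
      by_cases huD : u ∈ D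
      · left
        by_contra hne
        exact hp ⟨u, huD, u1, hu1, hne, hu, hu1z⟩
      · rcases hv u huD with rfl | rfl | rfl | h
        · exact absurd hu (nx z ha hb)
        · exact absurd hu (ny z ha hc)
        · exact absurd rfl hu.ne
        · exact Or.inr h
    constructor
    · unfold dg
      refine (Finset.card_le_card (t := {u1, z'}) ?_).trans Finset.card_le_two
      intro u hu
      have := key u (Finset.mem_filter.1 hu).2
      simpa using this
    · intro hnz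
      unfold dg
      refine (Finset.card_le_card (t := {u1}) ?_).trans (Finset.card_singleton _).le
      intro u hu
      have hu' := (Finset.mem_filter.1 hu).2
      rcases key u hu' with h | h
      · exact Finset.mem_singleton.2 h
      · exact absurd (by rw [← h]; exact hu'.symm) hnz
  have l1 := low2 z1 z2 z1x z1y z1a z1b z1c p1 hall'
  have l2 := low2 z2 z1 z2x z2y z2a z2b z2c p2 (fun v hv => by
    rcases hall' v hv with h | h | h | h
    · exact Or.inl h
    · exact Or.inr (Or.inl h)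
    · exact Or.inr (Or.inr (Or.inr h))
    · exact Or.inr (Or.inr (Or.inl h)))
  by_cases hadj : G.Adj z1 z2
  · exact hA V G (by omega) hG hGc hCC z1 z2 hadj l1.1 l2.1
  · have q1 := dg_pos G hG (by omega) z1
    have q2 := dg_pos G hG (by omega) z2
    have q3 := l1.2 hadj
    have q4 := l2.2 (fun h => hadj h.symm)
    exact hB V G (by omega) hG hGc hCC z1 z2 hz (by omega) (by omega)

end

theorem mem_low {V : Type} [Fintype V] (G : SimpleGraph V) (d : ℕ) (v : V) :
    v ∈ low G d ↔ dg G v ≤ d := by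
  unfold low
  simp

/-- rename a common neighbour -/
theorem rename {V : Type} (G : SimpleGraph V) (x a b v0 : V) (hN : ∀ v, G.Adj x v ↔ v = a ∨ v = b)
    (h : G.Adj x v0) : ∃ b', ∀ v, G.Adj x v ↔ v = v0 ∨ v = b' := by
  rcases (hN v0).1 h with rfl | rfl
  · exact ⟨b, hN⟩
  · exact ⟨a, fun v => by rw [hN, or_comm]⟩

theorem t_N7G (hC : S_COST) (hA : S_LOWA) (hB : S_LOWB) : S_N7G := by
  classical
  intro V _ _ G hn hG hGc hCC hlow
  obtain ⟨x, hx, y, hy, hxy⟩ := Finset.one_lt_card.1 (show 1 < (low G 2).card by omega)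
  rw [mem_low] at hx hy
  by_cases hadj : G.Adj x y
  · exact Or.inl (hA V G (by omega) hG hGc hCC x y hadj hx hy)
  by_cases h11 : dg G x = 1 ∧ dg G y = 1
  · exact Or.inl (hB V G (by omega) hG hGc hCC x y hxy h11.1 h11.2)
  obtain ⟨a, b, hN1, hab⟩ := nbhd G x (dg_pos G hG (by omega) x) hx
  obtain ⟨c, d, hN2, hcd⟩ := nbhd G y (dg_pos G hG (by omega) y) hy
  by_cases hdis : ∀ v, ¬ (G.Adj x v ∧ G.Adj y v)
  · refine Or.inl (disj7 G hC hn hCC x y a b c d hxy hN1 hN2 hdis hadj ?_)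
    rintro ⟨h1, h2⟩
    rcases hab with ⟨h3, -⟩ | ⟨-, h3⟩
    · rcases hcd with ⟨h4, -⟩ | ⟨-, h4⟩
      · exact h11 ⟨h3, h4⟩
      · exact h4 h2
    · exact h3 h1
  · push Not at hdis
    obtain ⟨v0, hv1, hv2⟩ := hdis
    obtain ⟨b', hN1'⟩ := rename G x a b v0 hN1 hv1
    obtain ⟨c', hN2'⟩ := rename G y c d v0 hN2 hv2
    obtain ⟨h1, h2, h3⟩ := common G hCC x y v0 b' c' hxy hN1' hN2'
    by_cases hbc : b' = c'
    · refine Or.inr ⟨x, y, v0, b', hxy, h1, h3 hbc, hN1', ?_⟩
      rw [hbc]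
      exact hN2'
    · exact Or.inl (caseb G hC hA hB hn hG hGc hCC x y v0 b' c' hxy hN1' hN2' hadj h1 h2 hbc)

end Run7.h660.OG.N
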