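import Pool.Agent.Run7.h660.OG.N

/-! # Project OG: piece N10A -/

set_option autoImplicit false

namespace Run7.h660.OG.N

open Pool.H723.OG

theorem t_N10A (hC : S_COST) (hM : S_MONO) (hA : S_LOWA) (hB : S_LOWB) : S_N10A := by
  classical
  intro V _ _ G hn hG hGc hCC hlow
  set L := low G 2 with hL
  have memL : ∀ v, v ∈ L ↔ dg G v ≤ 2 := fun v => mem_low G 2 v
  by_cases hadj : ∃ x ∈ L, ∃ y ∈ L, G.Adj x y
  · obtain ⟨x, hx, y, hy, h⟩ := hadj
    exact hM V G 3 5 (by norm_num) (hA V G (by omega) hG hGc hCC x y h ((memL x).1 hx) ((memL y).1 hy))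
  push Not at hadj
  by_cases h11 : ∃ x ∈ L, ∃ y ∈ L, x ≠ y ∧ dg G x = 1 ∧ dg G y = 1
  · obtain ⟨x, hx, y, hy, hxy, h1, h2⟩ := h11
    exact hM V G 3 5 (by norm_num) (hB V G (by omega) hG hGc hCC x y hxy h1 h2)
  push Not at h11
  have hnb : ∀ x ∈ L, ∃ a b, (∀ v, G.Adj x v ↔ v = a ∨ v = b) ∧
      ((dg G x = 1 ∧ a = b) ∨ (dg G x = 2 ∧ a ≠ b)) := fun x hx =>
    nbhd G x (dg_pos G hG (by omega) x) ((memL x).1 hx)
  by_cases hdis : ∃ x ∈ L, ∃ y ∈ L, x ≠ y ∧ ∀ v, ¬ (G.Adj x v ∧ G.Adj y v)
  · -- disjoint neighbourhoods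
    obtain ⟨x, hx, y, hy, hxy, hdis⟩ := hdis
    obtain ⟨a, b, hN1, hab⟩ := hnb x hx
    obtain ⟨c, d, hN2, hcd⟩ := hnb y hy
    have two := disj_two G hCC x y a b c d hxy hN1 hN2 hdis
    have xa : G.Adj x a := (hN1 a).2 (Or.inl rfl)
    have xb : G.Adj x b := (hN1 b).2 (Or.inr rfl)
    have yc : G.Adj y c := (hN2 c).2 (Or.inl rfl)
    have yd : G.Adj y d := (hN2 d).2 (Or.inr rfl)
    refine hM V G 4 5 (by norm_num) (hC V G {a, b, c, d} 4 ?_)
    have h0 : ∀ v, v ∉ ({a, b, c, d} : Finset V) → v ∉ (∅ : Finset V) →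
        ∃ u ∈ ({a, b, c, d} : Finset V), G.Adj u v := by
      intro v _ _
      by_cases hvx : v = x
      · exact ⟨a, by simp, by rw [hvx]; exact xa.symm⟩
      by_cases hvy : v = y
      · exact ⟨c, by simp, by rw [hvy]; exact yc.symm⟩
      obtain ⟨u, u', hne, h2, h3, h4, h5⟩ := two v hvx hvy
      exact ⟨u, h4, h2⟩
    rcases hab with ⟨h1, h2⟩ | ⟨-, h2⟩
    · -- `x` has degree one
      have hcd' : c ≠ d := by
        rcases hcd with ⟨h3, -⟩ | ⟨-, h3⟩
        · exact absurd h3 (h11 x hx y hy hxy h1)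
        · exact h3
      have h3 := cost_le G {a, b, c, d} ∅ {x} h0 ?_
      · have h4 : ({a, b, c, d} : Finset V).card ≤ 3 := by
          rw [h2, Finset.insert_eq_of_mem (by simp)]
          exact Finset.card_le_three
        rw [Finset.card_empty, Finset.card_singleton] at h3
        omega
      · intro v hv _ hvx
        rw [Finset.mem_singleton] at hvx
        by_cases hvy : v = y
        · exact ⟨c, by simp, d, by simp, hcd', by rw [hvy]; exact yc.symm, by rw [hvy]; exact yd.symm⟩
        obtain ⟨u, u', hne, h2, h3, h4, h5⟩ := two v hvx hvy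
        exact ⟨u, h4, u', h5, hne, h2, h3⟩
    · have h3 := cost_le G {a, b, c, d} ∅ {y} h0 ?_
      · have h4 : ({a, b, c, d} : Finset V).card ≤ 4 := Finset.card_le_four
        rw [Finset.card_empty, Finset.card_singleton] at h3
        omega
      · intro v hv _ hvy
        rw [Finset.mem_singleton] at hvy
        by_cases hvx : v = x
        · exact ⟨a, by simp, b, by simp, h2, by rw [hvx]; exact xa.symm, by rw [hvx]; exact xb.symm⟩
        obtain ⟨u, u', hne, h2, h3, h4, h5⟩ := two v hvx hvy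
        exact ⟨u, h4, u', h5, hne, h2, h3⟩
  push Not at hdis
  -- any two have a common neighbour
  have hpair : ∀ x ∈ L, ∀ y ∈ L, x ≠ y → ∃ a b c, (∀ v, G.Adj x v ↔ v = a ∨ v = b) ∧
      (∀ v, G.Adj y v ↔ v = a ∨ v = c) ∧ a ≠ b ∧ a ≠ c := by
    intro x hx y hy hxy
    obtain ⟨v0, hv1, hv2⟩ := hdis x hx y hy hxy
    obtain ⟨a, b, hN1, -⟩ := hnb x hx
    obtain ⟨c, d, hN2, -⟩ := hnb y hy
    obtain ⟨b', hN1'⟩ := rename G x a b v0 hN1 hv1
    obtain ⟨c', hN2'⟩ := rename G y c d v0 hN2 hv2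
    obtain ⟨h1, h2, -⟩ := common G hCC x y v0 b' c' hxy hN1' hN2'
    exact ⟨v0, b', c', hN1', hN2', h1, h2⟩
  obtain ⟨x1, hx1, x2, hx2, h12⟩ := Finset.one_lt_card.1 (show 1 < L.card by omega)
  have htwo : ∀ x ∈ L, ∃ a b, (∀ v, G.Adj x v ↔ v = a ∨ v = b) ∧ a ≠ b := by
    intro x hx
    by_cases h : x = x1
    · obtain ⟨a, b, c, h1, -, h2, -⟩ := hpair x hx x2 hx2 (by rw [h]; exact h12)
      exact ⟨a, b, h1, h2⟩
    · obtain ⟨a, b, c, h1, -, h2, -⟩ := hpair x hx x1 hx1 h
      exact ⟨a, b, h1, h2⟩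
  by_cases hall : ∀ x ∈ L, ∀ y ∈ L, ∀ v, G.Adj x v ↔ G.Adj y v
  · -- all neighbourhoods are equal
    obtain ⟨a, b, hN, hab⟩ := htwo x1 hx1
    have hNx : ∀ x ∈ L, ∀ v, G.Adj x v ↔ v = a ∨ v = b := fun x hx v => by
      rw [hall x hx x1 hx1, hN]
    set D : Finset V := {a, b} with hD
    have haD : a ∈ D := by simp [hD]
    have hbD : b ∈ D := by simp [hD]
    have cD : D.card = 2 := Finset.card_pair hab
    have hDL : Disjoint D L := by
      rw [Finset.disjoint_left]
      intro v hv hvL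
      have h1 : G.Adj x1 v := by
        rw [hN]
        simpa [hD] using hv
      exact hadj x1 hx1 v hvL h1
    set T : Finset V := (D ∪ L)ᶜ with hT
    have cT : T.card = 4 := by
      rw [hT, Finset.card_compl, Finset.card_union_of_disjoint hDL, hn, cD, hlow]
    -- one of them is adjacent to `a` or `b`
    have hex : ∃ t ∈ T, ∃ u ∈ D, G.Adj u t := by
      obtain ⟨t, ht⟩ := Finset.card_pos.1 (show 0 < T.card by omega)
      obtain ⟨p⟩ := hG.preconnected t a
      have haT : a ∉ (T : Set V) := by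
        intro h
        rw [Finset.mem_coe, hT, Finset.mem_compl, Finset.mem_union, not_or] at h
        exact h.1 haD
      obtain ⟨dd, -, hd1, hd2⟩ := p.exists_boundary_dart (T : Set V) (Finset.mem_coe.2 ht) haT
      refine ⟨dd.fst, Finset.mem_coe.1 hd1, dd.snd, ?_, dd.adj.symm⟩
      rw [Finset.mem_coe, hT, Finset.mem_compl, not_not, Finset.mem_union] at hd2
      rcases hd2 with h | h
      · exact h
      · exfalso
        have h1 := (hNx _ h dd.fst).1 dd.adj.symm
        rw [Finset.mem_coe, hT, Finset.mem_compl, Finset.mem_union, not_or] at hd1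
        apply hd1.1
        simpa [hD] using h1
    obtain ⟨t, ht, u, hu, hut⟩ := hex
    apply hC V G D 5
    have h1 := cost_le G D (T.erase t) {t} ?_ ?_
    · rw [cD, Finset.card_erase_of_mem ht, cT, Finset.card_singleton] at h1
      omega
    · intro v hv hvT
      by_cases hvt : v = t
      · exact ⟨u, hu, by rw [hvt]; exact hut⟩
      · have hvL : v ∈ L := by
          by_contra h
          exact hvT (Finset.mem_erase.2 ⟨hvt, by
            rw [hT, Finset.mem_compl, Finset.mem_union, not_or]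
            exact ⟨hv, h⟩⟩)
        exact ⟨a, haD, ((hNx v hvL a).2 (Or.inl rfl)).symm⟩
    · intro v hv hvT hvt
      rw [Finset.mem_singleton] at hvt
      have hvL : v ∈ L := by
        by_contra h
        exact hvT (Finset.mem_erase.2 ⟨hvt, by
          rw [hT, Finset.mem_compl, Finset.mem_union, not_or]
          exact ⟨hv, h⟩⟩)
      exact ⟨a, haD, b, hbD, hab, ((hNx v hvL a).2 (Or.inl rfl)).symm,
        ((hNx v hvL b).2 (Or.inr rfl)).symm⟩
  · -- two different neighbourhoods
    push Not at hall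
    obtain ⟨x, hx, y, hy, v1, hv1⟩ := hall
    have hxy : x ≠ y := by
      rintro rfl
      rcases hv1 with ⟨h1, h2⟩ | ⟨h1, h2⟩
      · exact h2 h1
      · exact h1 h2
    obtain ⟨a, b, c, hN1, hN2, hab, hac⟩ := hpair x hx y hy hxy
    have hbc : b ≠ c := by
      rintro rfl
      rw [hN1, hN2] at hv1
      tauto
    set D : Finset V := Finset.univ.filter (fun v => ∃ z ∈ L, G.Adj z v) with hD
    have memD : ∀ v, v ∈ D ↔ ∃ z ∈ L, G.Adj z v := fun v => by simp [hD]
    have hDL : Disjoint D L := by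
      rw [Finset.disjoint_left]
      intro v hv hvL
      obtain ⟨z, hz, h1⟩ := (memD v).1 hv
      exact hadj z hz v hvL h1
    have cD : D.card ≤ 5 := by
      have hsub : D ⊆ {a, b} ∪ (L.erase x).biUnion
          (fun z => Finset.univ.filter (fun v => G.Adj z v ∧ ¬ G.Adj x v)) := by
        intro v hv
        obtain ⟨z, hz, h1⟩ := (memD v).1 hv
        by_cases hxv : G.Adj x v
        · refine Finset.mem_union_left _ ?_
          have := (hN1 v).1 hxv
          simpa using this
        · refine Finset.mem_union_right _ (Finset.mem_biUnion.2 ⟨z, Finset.mem_erase.2 ⟨?_, hz⟩, ?_⟩)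
          · rintro rfl
            exact hxv h1
          · exact Finset.mem_filter.2 ⟨Finset.mem_univ _, h1, hxv⟩
      have h1 := Finset.card_le_card hsub
      have h2 := Finset.card_union_le ({a, b} : Finset V) ((L.erase x).biUnion
          (fun z => Finset.univ.filter (fun v => G.Adj z v ∧ ¬ G.Adj x v)))
      have h3 : ((L.erase x).biUnion
          (fun z => Finset.univ.filter (fun v => G.Adj z v ∧ ¬ G.Adj x v))).card ≤
          (L.erase x).card * 1 := by
        refine Finset.card_biUnion_le_card_mul _ _ _ fun z hz => ?_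
        rw [Finset.mem_erase] at hz
        obtain ⟨a', b', c', hM1, hM2, -, -⟩ := hpair x hx z hz.2 (Ne.symm hz.1)
        refine (Finset.card_le_card (t := {c'}) ?_).trans (Finset.card_singleton _).le
        intro v hv
        rw [Finset.mem_filter, hM1, hM2] at hv
        rw [Finset.mem_singleton]
        tauto
      rw [Finset.card_erase_of_mem hx, hlow] at h3
      have h4 : ({a, b} : Finset V).card ≤ 2 := Finset.card_le_two
      omega
    set T : Finset V := (D ∪ L)ᶜ with hT
    have cT : T.card + D.card = 6 := by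
      have h1 : (D ∪ L).card = D.card + 4 := by
        rw [Finset.card_union_of_disjoint hDL, hlow]
      have h2 := Finset.card_compl (D ∪ L)
      rw [h1, hn, ← hT] at h2
      omega
    have xa : G.Adj x a := (hN1 a).2 (Or.inl rfl)
    have xb : G.Adj x b := (hN1 b).2 (Or.inr rfl)
    have yc : G.Adj y c := (hN2 c).2 (Or.inr rfl)
    apply hC V G D 5
    have h1 := cost_le G D ∅ T ?_ ?_
    · rw [Finset.card_empty] at h1
      omega
    · intro v hv _
      by_cases hvL : v ∈ L
      · obtain ⟨a', b', h1, h2⟩ := htwo v hvL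
        have h3 : G.Adj v a' := (h1 a').2 (Or.inl rfl)
        exact ⟨a', (memD a').2 ⟨v, hvL, h3⟩, h3.symm⟩
      · obtain ⟨u, h1, h2⟩ := one_nb G hCC x y a b c hxy hbc hN1 hN2 v
          (fun h => hvL (h ▸ hx)) (fun h => hvL (h ▸ hy))
        refine ⟨u, (memD u).2 ?_, h1⟩
        rcases h2 with rfl | rfl | rfl
        · exact ⟨x, hx, xa⟩
        · exact ⟨x, hx, xb⟩
        · exact ⟨y, hy, yc⟩
    · intro v hv _ hvT
      have hvL : v ∈ L := by
        by_contra h
        apply hvT
        rw [hT, Finset.mem_compl, Finset.mem_union, not_or]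
        exact ⟨hv, h⟩
      obtain ⟨a', b', h1, h2⟩ := htwo v hvL
      have h3 : G.Adj v a' := (h1 a').2 (Or.inl rfl)
      have h4 : G.Adj v b' := (h1 b').2 (Or.inr rfl)
      exact ⟨a', (memD a').2 ⟨v, hvL, h3⟩, b', (memD b').2 ⟨v, hvL, h4⟩, h2, h3.symm, h4.symm⟩

end Run7.h660.OG.N
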