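import Pool.Agent.Run7.h660.OG.N

/-! # Project OG: piece N7T -/

set_option autoImplicit false

namespace Run7.h660.OG.N

open Pool.H723.OG

theorem no5 {V : Type} [Fintype V] [DecidableEq V] (G : SimpleGraph V) (hn : Fintype.card V = 7)
    (w p q a b : V) (h1 : ∀ t, G.Adj w t ↔ t = a ∨ t = b)
    (h2 : ∀ t, G.Adj w t ↔ t ≠ w ∧ t ≠ p ∧ t ≠ q) : False := by
  have h3 : (Finset.univ : Finset V) ⊆ {w, p, q, a, b} := by
    intro t _
    simp only [Finset.mem_insert, Finset.mem_singleton]
    by_cases h : G.Adj w t
    · have := (h1 t).1 h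
      tauto
    · rw [h2] at h
      tauto
  have h4 := (Finset.card_le_card h3).trans Finset.card_le_five
  rw [Finset.card_univ, hn] at h4
  omega

theorem t_N7T (hC : S_COST) (hB : S_LOWB) : S_N7T := by
  classical
  rintro V _ _ G hn hG hGc hCC ⟨x, y, a, b, hxy, hab, -, hx, hy⟩ ⟨u, v, p, q, huv, -, hpqc, hu, hv⟩
  have hpq : p ≠ q := hpqc.ne
  have key : ∀ w, (∀ t, Gᶜ.Adj w t ↔ t = p ∨ t = q) → ∀ t, G.Adj w t ↔ t ≠ w ∧ t ≠ p ∧ t ≠ q := by
    intro w hw t
    have h1 := hw t
    rw [SimpleGraph.compl_adj] at h1
    constructor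
    · intro h
      refine ⟨h.ne', fun h2 => ?_, fun h2 => ?_⟩
      · exact (h1.2 (Or.inl h2)).2 h
      · exact (h1.2 (Or.inr h2)).2 h
    · rintro ⟨h2, h3, h4⟩
      by_contra h
      rcases h1.1 ⟨h2.symm, h⟩ with h5 | h5
      · exact h3 h5
      · exact h4 h5
  have gu := key u hu
  have gv := key v hv
  have hup : u ≠ p := ((hu p).2 (Or.inl rfl)).ne
  have huq : u ≠ q := ((hu q).2 (Or.inr rfl)).ne
  have hvp : v ≠ p := ((hv p).2 (Or.inl rfl)).ne
  have hvq : v ≠ q := ((hv q).2 (Or.inr rfl)).ne
  have hxu : x ≠ u := by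
    rintro rfl
    exact no5 G hn x p q a b hx gu
  have hxv : x ≠ v := by
    rintro rfl
    exact no5 G hn x p q a b hx gv
  have hyu : y ≠ u := by
    rintro rfl
    exact no5 G hn y p q a b hy gu
  have hyv : y ≠ v := by
    rintro rfl
    exact no5 G hn y p q a b hy gv
  have hnpq : ¬ G.Adj p q := ((SimpleGraph.compl_adj G p q).1 hpqc).2
  by_cases hxpq : x = p ∨ x = q
  · -- second case
    have nux : ¬ G.Adj u x := fun h => by
      have := (gu x).1 h
      tauto
    have nvx : ¬ G.Adj v x := fun h => by
      have := (gv x).1 h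
      tauto
    have hua : u ≠ a := fun h => nux (by rw [h]; exact ((hx a).2 (Or.inl rfl)).symm)
    have hub : u ≠ b := fun h => nux (by rw [h]; exact ((hx b).2 (Or.inr rfl)).symm)
    have hva : v ≠ a := fun h => nvx (by rw [h]; exact ((hx a).2 (Or.inl rfl)).symm)
    have hvb : v ≠ b := fun h => nvx (by rw [h]; exact ((hx b).2 (Or.inr rfl)).symm)
    have hypq : y = p ∨ y = q := by
      by_contra h
      rw [not_or] at h
      have h1 : G.Adj u y := (gu y).2 ⟨hyu, h.1, h.2⟩
      rcases (hy u).1 h1.symm with h2 | h2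
      · exact hua h2
      · exact hub h2
    have hpq' : ∀ t, t = p ∨ t = q → t = x ∨ t = y := by
      rintro t (rfl | rfl) <;> rcases hxpq with h1 | h1 <;> rcases hypq with h2 | h2
      · exact Or.inl h1.symm
      · exact Or.inl h1.symm
      · exact Or.inr h2.symm
      · exact absurd (h1.trans h2.symm) hxy
      · exact absurd (h1.trans h2.symm) hxy
      · exact Or.inr h2.symm
      · exact Or.inl h1.symm
      · exact Or.inl h1.symm
    have xa : G.Adj x a := (hx a).2 (Or.inl rfl)
    have xb : G.Adj x b := (hx b).2 (Or.inr rfl)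
    have ya : G.Adj y a := (hy a).2 (Or.inl rfl)
    have yb : G.Adj y b := (hy b).2 (Or.inr rfl)
    have hap : ¬ (a = p ∨ a = q) := fun h => by
      rcases hpq' a h with h1 | h1
      · exact xa.ne h1.symm
      · exact ya.ne h1.symm
    have hbp : ¬ (b = p ∨ b = q) := fun h => by
      rcases hpq' b h with h1 | h1
      · exact xb.ne h1.symm
      · exact yb.ne h1.symm
    rw [not_or] at hap hbp
    have ua : G.Adj u a := (gu a).2 ⟨hua.symm, hap.1, hap.2⟩
    have ub : G.Adj u b := (gu b).2 ⟨hub.symm, hbp.1, hbp.2⟩
    have va : G.Adj v a := (gv a).2 ⟨hva.symm, hap.1, hap.2⟩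
    have vb : G.Adj v b := (gv b).2 ⟨hvb.symm, hbp.1, hbp.2⟩
    have hxa := xa.ne
    have hxb := xb.ne
    have hya := ya.ne
    have hyb := yb.ne
    set E : Finset V := {a, b, x, y, u, v} with hE
    have cE : E.card = 6 := by
      rw [hE, Finset.card_insert_of_notMem (by simp [hab, hxa.symm, hya.symm, hua.symm, hva.symm]),
        Finset.card_insert_of_notMem (by simp [hxb.symm, hyb.symm, hub.symm, hvb.symm]),
        Finset.card_insert_of_notMem (by simp [hxy, hxu, hxv]),
        Finset.card_insert_of_notMem (by simp [hyu, hyv]),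
        Finset.card_insert_of_notMem (by simp [huv]), Finset.card_singleton]
    apply hC V G {a, b} 3
    have h1 := cost_le G {a, b} Eᶜ ∅ ?_ ?_
    · have h2 : ({a, b} : Finset V).card ≤ 2 := Finset.card_le_two
      rw [Finset.card_compl, cE, hn, Finset.card_empty] at h1
      omega
    · intro w hw hwE
      rw [Finset.mem_compl, not_not, hE] at hwE
      simp only [Finset.mem_insert, Finset.mem_singleton] at hw hwE
      refine ⟨a, by simp, ?_⟩
      rcases hwE with h | h | h | h | h | h
      · exact absurd (Or.inl h) hw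
      · exact absurd (Or.inr h) hw
      · rw [h]; exact xa.symm
      · rw [h]; exact ya.symm
      · rw [h]; exact ua.symm
      · rw [h]; exact va.symm
    · intro w hw hwE _
      rw [Finset.mem_compl, not_not, hE] at hwE
      simp only [Finset.mem_insert, Finset.mem_singleton] at hw hwE
      refine ⟨a, by simp, b, by simp, hab, ?_⟩
      rcases hwE with h | h | h | h | h | h
      · exact absurd (Or.inl h) hw
      · exact absurd (Or.inr h) hw
      · rw [h]; exact ⟨xa.symm, xb.symm⟩
      · rw [h]; exact ⟨ya.symm, yb.symm⟩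
      · rw [h]; exact ⟨ua.symm, ub.symm⟩
      · rw [h]; exact ⟨va.symm, vb.symm⟩
  · -- first case
    rw [not_or] at hxpq
    have ux : G.Adj u x := (gu x).2 ⟨hxu, hxpq.1, hxpq.2⟩
    have vx : G.Adj v x := (gv x).2 ⟨hxv, hxpq.1, hxpq.2⟩
    have hu' := (hx u).1 ux.symm
    have hv' := (hx v).1 vx.symm
    have hNx : ∀ t, G.Adj x t → t = u ∨ t = v := by
      intro t ht
      have h1 := (hx t).1 ht
      rcases hu' with h2 | h2 <;> rcases hv' with h3 | h3
      · exact absurd (h2.trans h3.symm) huv
      · rcases h1 with h1 | h1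
        · exact Or.inl (h1.trans h2.symm)
        · exact Or.inr (h1.trans h3.symm)
      · rcases h1 with h1 | h1
        · exact Or.inr (h1.trans h3.symm)
        · exact Or.inl (h1.trans h2.symm)
      · exact absurd (h2.trans h3.symm) huv
    have hNy : ∀ t, G.Adj y t → t = u ∨ t = v := fun t ht => hNx t ((hx t).2 ((hy t).1 ht))
    have uy : G.Adj u y := ((hy u).2 hu').symm
    have hyp : y ≠ p := ((gu y).1 uy).2.1
    have hyq : y ≠ q := ((gu y).1 uy).2.2
    set E : Finset V := {u, v, x, y, p, q} with hE
    have cE : E.card = 6 := by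
      rw [hE, Finset.card_insert_of_notMem (by simp [huv, hxu.symm, hyu.symm, hup, huq]),
        Finset.card_insert_of_notMem (by simp [hxv.symm, hyv.symm, hvp, hvq]),
        Finset.card_insert_of_notMem (by simp [hxy, hxpq.1, hxpq.2]),
        Finset.card_insert_of_notMem (by simp [hyp, hyq]),
        Finset.card_insert_of_notMem (by simp [hpq]), Finset.card_singleton]
    have cEc : Eᶜ.card = 1 := by
      rw [Finset.card_compl, cE, hn]
    have low1 : ∀ w, (w = p ∨ w = q) → dg G w = 1 := by
      intro w hw
      have h1 := dg_pos G hG (by omega) w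
      have hwx : ¬ G.Adj x w := fun h => by
        rcases hNx w h with h2 | h2 <;> rcases hw with h3 | h3
        · exact hup (h2.symm.trans h3)
        · exact huq (h2.symm.trans h3)
        · exact hvp (h2.symm.trans h3)
        · exact hvq (h2.symm.trans h3)
      have hwy : ¬ G.Adj y w := fun h => by
        rcases hNy w h with h2 | h2 <;> rcases hw with h3 | h3
        · exact hup (h2.symm.trans h3)
        · exact huq (h2.symm.trans h3)
        · exact hvp (h2.symm.trans h3)
        · exact hvq (h2.symm.trans h3)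
      have h2 : dg G w ≤ 1 := by
        unfold dg
        refine (Finset.card_le_card (t := Eᶜ) ?_).trans cEc.le
        intro t ht
        have htw := (Finset.mem_filter.1 ht).2
        rw [Finset.mem_compl, hE]
        simp only [Finset.mem_insert, Finset.mem_singleton, not_or]
        refine ⟨?_, ?_, ?_, ?_, ?_, ?_⟩
        · rintro rfl
          have := (gu w).1 htw
          tauto
        · rintro rfl
          have := (gv w).1 htw
          tauto
        · rintro rfl
          exact hwx htw
        · rintro rfl
          exact hwy htw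
        · rintro rfl
          rcases hw with rfl | rfl
          · exact htw.ne rfl
          · exact hnpq htw
        · rintro rfl
          rcases hw with rfl | rfl
          · exact hnpq htw.symm
          · exact htw.ne rfl
      omega
    exact hB V G (by omega) hG hGc hCC p q hpq (low1 p (Or.inl rfl)) (low1 q (Or.inr rfl))

end Run7.h660.OG.N
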